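import Pool.Agent.H53.SQ.G7

namespace Pool.Agent.Results.MP_41dcdb_gt.StronglyQuasipositive

/-- Every weakly successively almost positive link is strongly quasipositive: every weakly
successively almost positive diagram is connected by elementary isotopies with the closure of a
strongly quasipositive braid. -/
theorem result (w : List Pool.Agent.H53.SQ.Gen) (hw : Pool.Agent.H53.SQ.WSAP w) :
    Pool.Agent.H53.SQ.SQP w :=
  Pool.Agent.H53.SQ.sqp_of_wsap w hw

end Pool.Agent.Results.MP_41dcdb_gt.StronglyQuasipositive
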